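import Pool.Agent.Helper82.SP.B14
import Pool.Agent.Helper82.SP.GoalsB

/-!
# Project SP, goal B12: a constant pivot
-/

set_option autoImplicit false

namespace Pool.Agent.Helper44.SP

open Matrix Real
open Pool.Agent.Helper26.LU (V M3 SO3 nrm sph proj Bm Rot crossM SO3_left mem_SO3)
open Pool.Agent.Helper82.SP

/-- The translations which do not change three of the distances to `w`. -/
theorem key_line (hTB : G_TB) {v : Fin 4 → V} {a : ℝ} (ht : Tet v a) (w : V) (i0 : Fin 4) :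
    ∃ D : ℝ, ∀ s : V, (∀ i, i ≠ i0 → 2 * ((v i - w) ⬝ᵥ s) + s ⬝ᵥ s = 0) →
      ∃ l : ℝ, s = l • (v i0 - gv v) ∧ l * (2 * D + l * (3 * a ^ 2 / 8)) = 0 := by
  obtain ⟨h1, h2, h3, h4⟩ := hTB v a ht
  have ha : 0 < a := ht.1
  have ha2 : 0 < a ^ 2 := by positivity
  set n := v i0 - gv v with hn
  have hnn : n ⬝ᵥ n = 3 * a ^ 2 / 8 := by rw [hn, h3]; simp
  have hni : ∀ i, i ≠ i0 → (v i - gv v) ⬝ᵥ n = -a ^ 2 / 8 := by
    intro i hi; rw [hn, h3, if_neg hi]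
  -- the common value
  obtain ⟨i1, hi1, -⟩ := exists_ne_ne i0 i0
  set D := (v i1 - w) ⬝ᵥ n with hD
  have hDi : ∀ i, i ≠ i0 → (v i - w) ⬝ᵥ n = D := by
    intro i hi
    have e1 : (v i - w) ⬝ᵥ n = (v i - gv v) ⬝ᵥ n + (gv v - w) ⬝ᵥ n := by
      rw [← add_dotProduct]; congr 1; abel
    have e2 : D = (v i1 - gv v) ⬝ᵥ n + (gv v - w) ⬝ᵥ n := by
      rw [hD, ← add_dotProduct]; congr 1; abel
    rw [e1, e2, hni i hi, hni i1 hi1]
  have hnpos : 0 < nrm n := by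
    have : 0 < n ⬝ᵥ n := by rw [hnn]; positivity
    unfold nrm; exact Real.sqrt_pos.2 this
  refine ⟨D, ?_⟩
  intro s hs
  have hα : ∀ i, i ≠ i0 → (v i - gv v) ⬝ᵥ s = (v i1 - gv v) ⬝ᵥ s := by
    intro i hi
    have e1 := hs i hi
    have e2 := hs i1 hi1
    simp only [sub_dotProduct] at e1 e2 ⊢
    linarith
  set α := (v i1 - gv v) ⬝ᵥ s with hαd
  have hsum : ∑ i, (v i - gv v) = 0 := by
    rw [Finset.sum_sub_distrib, Finset.sum_const, Finset.card_univ, Fintype.card_fin,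
      ← Nat.cast_smul_eq_nsmul ℝ, gv, smul_smul]
    norm_num
  have hα0 : n ⬝ᵥ s = -3 * α := by
    have e1 : ∑ i, (v i - gv v) ⬝ᵥ s = 0 := by
      rw [← sum_dotProduct, hsum, zero_dotProduct]
    rw [← Finset.add_sum_erase _ _ (Finset.mem_univ i0)] at e1
    have e2 : ∑ i ∈ Finset.univ.erase i0, (v i - gv v) ⬝ᵥ s = 3 * α := by
      rw [Finset.sum_congr rfl fun i hi => hα i (Finset.ne_of_mem_erase hi)]
      simp
    rw [e2] at e1
    linarith
  have hsv : s = (-8 * α / a ^ 2) • n := by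
    have e1 := h2 (gv v + s)
    have e2 : ∀ i, bc v a (gv v + s) i = 1 / 4 + 2 / a ^ 2 * ((v i - gv v) ⬝ᵥ s) := by
      intro i; simp only [bc]; rw [add_sub_cancel_left, dotProduct_comm]
    have e3 : ∑ i, bc v a (gv v + s) i • (v i - gv v) = s := by
      simp only [smul_sub, Finset.sum_sub_distrib]
      rw [e1, ← Finset.sum_smul, h1]; simp
    have e4 : ∑ i, bc v a (gv v + s) i • (v i - gv v)
        = bc v a (gv v + s) i0 • n + (1 / 4 + 2 / a ^ 2 * α) • ∑ i ∈ Finset.univ.erase i0, (v i - gv v) := by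
      rw [← Finset.add_sum_erase _ _ (Finset.mem_univ i0), Finset.smul_sum]
      congr 1
      refine Finset.sum_congr rfl fun i hi => ?_
      rw [e2, hα i (Finset.ne_of_mem_erase hi)]
    have e5 : ∑ i ∈ Finset.univ.erase i0, (v i - gv v) = -n := by
      have := hsum
      rw [← Finset.add_sum_erase _ _ (Finset.mem_univ i0)] at this
      exact eq_neg_of_add_eq_zero_right this
    rw [e3, e5, e2, ← hn, hα0] at e4
    rw [e4]
    rw [smul_neg, ← sub_eq_add_neg, ← sub_smul]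
    congr 1
    field_simp
    ring
  refine ⟨-8 * α / a ^ 2, hsv, ?_⟩
  have e6 := hs i1 hi1
  rw [hsv] at e6
  simp only [dotProduct_smul, smul_dotProduct, smul_eq_mul] at e6
  rw [← hD, hnn] at e6
  linear_combination e6

theorem dot_mulVec_SO3 {R : M3} (hR : R ∈ SO3) (x : V) :
    (R *ᵥ x) ⬝ᵥ (R *ᵥ x) = x ⬝ᵥ x := by
  rw [Matrix.dotProduct_mulVec, Matrix.vecMul_mulVec, SO3_left hR, Matrix.vecMul_one]

theorem Qd_center (c : V) (g : ℝ) (y : V) :
    Qd 1 c g (c + y) = y ⬝ᵥ y - c ⬝ᵥ c + g := by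
  simp only [Qd, add_dotProduct, dotProduct_add]
  rw [dotProduct_comm y c]
  ring

theorem goalB12 (hTB : G_TB) : G_B12 := by
  intro v a K κ b g U i0 c ht hκ hU hne hmain
  -- the pivots
  have hrep : ∀ R ∈ SO3, ∀ t : V, ∀ i, R *ᵥ v i + t = c + R *ᵥ (v i - Rᵀ *ᵥ (c - t)) := by
    intro R hR t i
    rw [Matrix.mulVec_sub, Matrix.mulVec_mulVec, ((mem_SO3 R).1 hR).1, Matrix.one_mulVec]
    abel
  have hdist : ∀ R ∈ SO3, ∀ s : V, (∀ i, Qd (κ i) (b i) (g i) (c + R *ᵥ (v i - s)) = 0) →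
      ∀ i, i ≠ i0 → (v i - s) ⬝ᵥ (v i - s) = c ⬝ᵥ c - g i := by
    intro R hR s h i hi
    have h1 := h i
    rw [(hκ i hi).1, (hκ i hi).2, Qd_center, dot_mulVec_SO3 hR] at h1
    linarith
  obtain ⟨R0, hR0U, hR0⟩ := hne
  obtain ⟨t0, ht0⟩ := hmain R0 hR0U hR0
  obtain ⟨s0, hs0⟩ : ∃ s0, s0 = R0ᵀ *ᵥ (c - t0) := ⟨_, rfl⟩
  have hd0 : ∀ i, i ≠ i0 → (v i - s0) ⬝ᵥ (v i - s0) = c ⬝ᵥ c - g i := by
    refine hdist R0 hR0 s0 fun i => ?_
    rw [hs0, ← hrep R0 hR0 t0 i]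
    exact (ht0 i).2
  obtain ⟨D, hD⟩ := key_line hTB ht s0 i0
  have ha2 : 0 < a ^ 2 := by
    have := ht.1
    positivity
  obtain ⟨l1, hl1⟩ : ∃ l1 : ℝ, l1 = -(2 * D) / (3 * a ^ 2 / 8) := ⟨_, rfl⟩
  obtain ⟨s1, hs1⟩ : ∃ s1 : V, s1 = s0 - l1 • (v i0 - gv v) := ⟨_, rfl⟩
  have htwo : ∀ s : V, (∀ i, i ≠ i0 → (v i - s) ⬝ᵥ (v i - s) = c ⬝ᵥ c - g i) →
      s = s0 ∨ s = s1 := by
    intro s hs
    obtain ⟨l, hl, hl2⟩ := hD (s0 - s) fun i hi => by
      have e1 := hs i hi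
      rw [← hd0 i hi] at e1
      have e2 : v i - s = (v i - s0) + (s0 - s) := by abel
      rw [e2] at e1
      simp only [add_dotProduct, dotProduct_add] at e1
      rw [dotProduct_comm (s0 - s) (v i - s0)] at e1
      linarith
    rcases mul_eq_zero.1 hl2 with h | h
    · left
      rw [h, zero_smul, sub_eq_zero] at hl
      exact hl.symm
    · right
      have e3 : l = l1 := by
        rw [hl1, eq_div_iff (by positivity)]
        linarith
      rw [hs1, ← e3, ← hl]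
      abel
  let F : Set M3 := {R | ∀ i, c + R *ᵥ (v i - s0) ∈ frontier K ∧
    Qd (κ i) (b i) (g i) (c + R *ᵥ (v i - s0)) = 0}
  have hF : IsClosed F := by
    have e : F = ⋂ i, ((fun R : M3 => c + R *ᵥ (v i - s0)) ⁻¹' frontier K ∩
        {R | Qd (κ i) (b i) (g i) (c + R *ᵥ (v i - s0)) = 0}) := by
      ext R
      simp [F, Set.mem_iInter]
    rw [e]
    have hc : ∀ i, Continuous fun R : M3 => c + R *ᵥ (v i - s0) := fun i => by fun_prop
    refine isClosed_iInter fun i => (isClosed_frontier.preimage (hc i)).inter ?_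
    refine isClosed_eq ?_ continuous_const
    have h1 : Continuous fun x : V => Qd (κ i) (b i) (g i) x := by
      unfold Qd
      fun_prop
    exact h1.comp (hc i)
  by_cases hsub : ∀ R ∈ U, R ∈ SO3 → R ∈ F
  · exact ⟨s0, U, hU, ⟨R0, hR0U, hR0⟩, fun R hRU hR i => hsub R hRU hR i⟩
  · push Not at hsub
    obtain ⟨R1, hR1U, hR1, hR1F⟩ := hsub
    refine ⟨s1, U ∩ Fᶜ, hU.inter hF.isOpen_compl, ⟨R1, ⟨hR1U, hR1F⟩, hR1⟩, ?_⟩
    rintro R ⟨hRU, hRF⟩ hR i
    obtain ⟨t, ht'⟩ := hmain R hRU hR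
    have hall : ∀ i, c + R *ᵥ (v i - Rᵀ *ᵥ (c - t)) ∈ frontier K ∧
        Qd (κ i) (b i) (g i) (c + R *ᵥ (v i - Rᵀ *ᵥ (c - t))) = 0 := by
      intro i
      rw [← hrep R hR t i]
      exact ht' i
    rcases htwo (Rᵀ *ᵥ (c - t)) (hdist R hR _ fun i => (hall i).2) with h | h
    · exfalso
      apply hRF
      intro i
      rw [← h]
      exact hall i
    · rw [← h]
      exact hall i

end Pool.Agent.Helper44.SP
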